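import Mathlib
import Pool.Agent.SCT.CountA
import Pool.Agent.SHC.Semi
import Pool.Agent.SHC.Smooth

/-!
# A character sum in characteristic three

`L` a finite field with `81 ^ m` elements, `m ≥ 1`, `η` its quadratic character.
`sum_main`: `∑_w ∑_v η ((w³ + w² + 1)² - (v³ - v)²) = 12 #L`.

Proof. Let `ψ` be a primitive additive character with `ψ (x³) = ψ x`, `G = ∑ η ψ`; then
`G² = q`. The number of the `y` with `y³ - y = v` is `1 + ψ(v) + ψ(-v)`, and the sums are
evaluated by completing squares and by `ψ (x³) = ψ x`.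
-/

set_option autoImplicit false

namespace SC3

open Finset SCT SHC

variable {L : Type} [Field L] [Fintype L] [DecidableEq L]

/-- the quadratic character with complex values -/
noncomputable def e (x : L) : ℂ := ((quadraticChar L x : ℤ) : ℂ)

lemma e_mul (a b : L) : e (a * b) = e a * e b := by
  unfold e
  rw [map_mul]
  push_cast
  rfl

lemma e_zero : e (0 : L) = 0 := by
  unfold e
  rw [eta_zero, Int.cast_zero]

lemma e_one : e (1 : L) = 1 := by
  unfold e
  rw [map_one, Int.cast_one]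

lemma e_sq {a b : L} (ha : a ≠ 0) : e (a ^ 2 * b) = e b := by
  unfold e
  rw [eta_sq ha]

lemma e_cube (a : L) : e (a ^ 3) = e a := by
  by_cases ha : a = 0
  · subst ha
    rw [zero_pow three_ne_zero]
  · have : a ^ 3 = a ^ 2 * a := by ring
    rw [this, e_sq ha]

lemma e_inv (a : L) : e a⁻¹ = e a := by
  by_cases ha : a = 0
  · subst ha
    rw [inv_zero]
  · have : a = a ^ 2 * a⁻¹ := by field_simp
    conv_rhs => rw [this, e_sq ha]

lemma e_mul_self {a : L} (ha : a ≠ 0) : e a * e a = 1 := by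
  rw [← e_mul]
  have : a * a = a ^ 2 * 1 := by ring
  rw [this, e_sq ha, e_one]

/-- sums over the units -/
lemma sum_un (f : L → ℂ) : ∑ x, f x = f 0 + ∑ u : Lˣ, f u := sum_units f

/-- the number of square roots -/
lemma sum_sqC (h2 : (2 : L) ≠ 0) (k : L) :
    (∑ y : L, if y ^ 2 = k then (1 : ℂ) else 0) = 1 + e k := by
  have h := sum_sq h2 k
  unfold e
  have h' := congrArg (fun n : ℤ => (n : ℂ)) h
  push_cast at h'
  exact h'

lemma sum_fiberC (h2 : (2 : L) ≠ 0) (g : L → ℂ) :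
    (∑ y : L, g (y ^ 2)) = ∑ t : L, (1 + e t) * g t := by
  have h : ∀ y : L, g (y ^ 2) = ∑ t : L, (if y ^ 2 = t then (1 : ℂ) else 0) * g t := by
    intro y
    rw [Finset.sum_eq_single (y ^ 2)]
    · simp
    · intro t _ ht
      rw [if_neg (Ne.symm ht), zero_mul]
    · intro h
      exact absurd (Finset.mem_univ _) h
  simp_rw [h]
  rw [Finset.sum_comm]
  refine Finset.sum_congr rfl fun t _ => ?_
  rw [← Finset.sum_mul, sum_sqC h2]

lemma sum_e (h2 : (2 : L) ≠ 0) : (∑ t : L, e t) = 0 := by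
  have h := sum_eta (L := L) h2
  unfold e
  exact_mod_cast h

omit [DecidableEq L] in
/-- linear change of variables -/
lemma sum_linC {a : L} (ha : a ≠ 0) (b : L) (g : L → ℂ) :
    (∑ t : L, g (a * t + b)) = ∑ t : L, g t := by
  refine Fintype.sum_bijective (fun t : L => a * t + b) ?_ _ _ fun t => rfl
  refine ⟨fun s t h => ?_, fun t => ⟨(t - b) / a, ?_⟩⟩
  · have h' : a * s = a * t := add_right_cancel h
    exact mul_left_cancel₀ ha h'
  · show a * ((t - b) / a) + b = t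
    rw [mul_div_cancel₀ _ ha, sub_add_cancel]

omit [DecidableEq L] in
lemma sum_negC (g : L → ℂ) : (∑ t : L, g (-t)) = ∑ t : L, g t := by
  have h := sum_linC (neg_ne_zero.2 (one_ne_zero (α := L))) 0 g
  rw [← h]
  refine Finset.sum_congr rfl fun t _ => ?_
  congr 1
  ring

omit [DecidableEq L] in
lemma sum_mulC {a : L} (ha : a ≠ 0) (g : L → ℂ) : (∑ t : L, g (a * t)) = ∑ t : L, g t := by
  have h := sum_linC ha 0 g
  rw [← h]
  refine Finset.sum_congr rfl fun t _ => ?_
  congr 1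
  ring

/-- `∑ Φ(w - 1/w)` -/
lemma sum_inv_sub (h2 : (2 : L) ≠ 0) (Φ : L → ℂ) :
    ∑ z : Lˣ, Φ ((z : L) - (z : L)⁻¹) = ∑ X : L, (1 + e (X ^ 2 + 4)) * Φ X := by
  have h4 : (4 : L) ≠ 0 := by
    have : (4 : L) = 2 * 2 := by norm_num
    rw [this]
    exact mul_ne_zero h2 h2
  have h1 : ∀ z : Lˣ, Φ ((z : L) - (z : L)⁻¹) =
      ∑ X : L, (if (2 * (z : L) + -X) ^ 2 = X ^ 2 + 4 then (1 : ℂ) else 0) * Φ X := by
    intro z
    have hz : (z : L) ≠ 0 := z.ne_zero
    rw [Finset.sum_eq_single ((z : L) - (z : L)⁻¹)]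
    · rw [if_pos, one_mul]
      field_simp
      ring
    · intro X _ hX
      rw [if_neg, zero_mul]
      intro h
      apply hX
      have h5 : 4 * (z * X) = 4 * ((z : L) ^ 2 - 1) := by linear_combination -h
      have h6 := mul_left_cancel₀ h4 h5
      field_simp
      linear_combination h6
    · intro h
      exact absurd (Finset.mem_univ _) h
  have h0 : (∑ X : L, (if (2 * (0 : L) + -X) ^ 2 = X ^ 2 + 4 then (1 : ℂ) else 0) * Φ X) = 0 := by
    refine Finset.sum_eq_zero fun X _ => ?_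
    rw [if_neg, zero_mul]
    intro h
    apply h4
    linear_combination -h
  have h3 := sum_un (fun z : L =>
    ∑ X : L, (if (2 * z + -X) ^ 2 = X ^ 2 + 4 then (1 : ℂ) else 0) * Φ X)
  simp only [h0, zero_add] at h3
  rw [Finset.sum_congr rfl fun z _ => h1 z, ← h3, Finset.sum_comm]
  refine Finset.sum_congr rfl fun X _ => ?_
  rw [← Finset.sum_mul]
  congr 1
  rw [sum_linC h2 (-X) (fun y => if y ^ 2 = X ^ 2 + 4 then (1 : ℂ) else 0), sum_sqC h2]

section Psi

variable {ψ : AddChar L ℂ}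

/-- orthogonality -/
lemma orth (hψ : Adm 3 ψ) (b : L) :
    ∑ x : L, ψ (x * b) = if b = 0 then (Fintype.card L : ℂ) else 0 := by
  rw [AddChar.sum_mulShift b hψ.prim]
  push_cast
  rfl

/-- the Gauss sum -/
noncomputable def GG (ψ : AddChar L ℂ) : ℂ := ∑ t : L, e t * ψ t

lemma gauss1 (h2 : (2 : L) ≠ 0) (t : L) : ∑ u : L, e u * ψ (u * t) = e t * GG ψ := by
  by_cases ht : t = 0
  · subst ht
    simp only [mul_zero, AddChar.map_zero_eq_one, mul_one, e_zero, zero_mul]
    exact sum_e h2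
  · unfold GG
    rw [← sum_mulC ht (fun u => e u * ψ u), Finset.mul_sum]
    refine Finset.sum_congr rfl fun u _ => ?_
    rw [e_mul, mul_comm t u]
    linear_combination (-(e u * ψ (u * t))) * e_mul_self ht

lemma gauss2 (h2 : (2 : L) ≠ 0) (hneg : e (-1 : L) = 1) (hψ : Adm 3 ψ) :
    GG ψ * GG ψ = (Fintype.card L : ℂ) := by
  have h0 : GG ψ * GG ψ = ∑ t : L, e t * ψ t * GG ψ := by
    rw [← Finset.sum_mul]
    rfl
  have h1 : GG ψ * GG ψ = ∑ t : L, ∑ u : L, e u * ψ (t * (1 + u)) := by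
    rw [h0]
    refine Finset.sum_congr rfl fun t _ => ?_
    have := gauss1 (ψ := ψ) h2 t
    have h5 : e t * ψ t * GG ψ = ψ t * (e t * GG ψ) := by ring
    rw [h5, ← this, Finset.mul_sum]
    refine Finset.sum_congr rfl fun u _ => ?_
    rw [mul_add, mul_one, AddChar.map_add_eq_mul, mul_comm t u]
    ring
  rw [h1, Finset.sum_comm]
  have h2' : ∀ u : L, ∑ t : L, e u * ψ (t * (1 + u)) =
      if u = -1 then (Fintype.card L : ℂ) else 0 := by
    intro u
    rw [← Finset.mul_sum, orth hψ]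
    by_cases hu : u = -1
    · subst hu
      rw [if_pos rfl, if_pos (by ring), hneg, one_mul]
    · rw [if_neg hu, if_neg, mul_zero]
      intro h
      exact hu (by linear_combination h)
  rw [Finset.sum_congr rfl fun u _ => h2' u, Finset.sum_ite_eq' univ (-1 : L),
    if_pos (mem_univ _)]

/-- quadratic Gauss sums -/
lemma gauss_sq (h2 : (2 : L) ≠ 0) (hψ : Adm 3 ψ) {c : L} (hc : c ≠ 0) :
    ∑ x : L, ψ (c * x ^ 2) = e c * GG ψ := by
  rw [sum_fiberC h2 (fun t => ψ (c * t))]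
  simp only [add_mul, one_mul, Finset.sum_add_distrib]
  have h1 : ∑ x : L, ψ (c * x) = 0 := by
    have := orth hψ c
    rw [if_neg hc] at this
    rw [← this]
    exact Finset.sum_congr rfl fun x _ => by rw [mul_comm]
  rw [h1, zero_add, ← gauss1 h2 c]
  exact Finset.sum_congr rfl fun x _ => by rw [mul_comm c x]

variable [CharP L 3]

lemma three : (3 : L) = 0 := by
  have := CharP.cast_eq_zero L 3
  exact_mod_cast this

lemma sum_cube (g : L → ℂ) : ∑ u : L, g (u ^ 3) = ∑ u : L, g u := by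
  haveI : Fact (Nat.Prime 3) := ⟨Nat.prime_three⟩
  have h := pow_bij (L := L) (p := 3) 1
  rw [pow_one] at h
  exact Fintype.sum_bijective _ h _ _ fun x => rfl

/-- the fibres of `y ↦ y³ - y` -/
lemma sum_AS (h2 : (2 : L) ≠ 0) (hψ : Adm 3 ψ) (f : L → ℂ) :
    ∑ y : L, f (y ^ 3 - y) = ∑ v : L, f v * (1 + ψ v + ψ (-v)) := by
  have hq : (Fintype.card L : ℂ) ≠ 0 := by
    exact_mod_cast Fintype.card_ne_zero
  apply mul_left_cancel₀ hq
  have h1 : (Fintype.card L : ℂ) * ∑ y : L, f (y ^ 3 - y) =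
      ∑ y : L, ∑ v : L, f v * ∑ t : L, ψ (t * (y ^ 3 - y - v)) := by
    rw [Finset.mul_sum]
    refine Finset.sum_congr rfl fun y _ => ?_
    have : ∀ v : L, f v * ∑ t : L, ψ (t * (y ^ 3 - y - v)) =
        if v = y ^ 3 - y then (Fintype.card L : ℂ) * f v else 0 := by
      intro v
      rw [orth hψ]
      by_cases hv : v = y ^ 3 - y
      · rw [if_pos hv, if_pos (by rw [hv, sub_self]), mul_comm]
      · rw [if_neg hv, if_neg, mul_zero]
        intro h
        exact hv (by linear_combination -h)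
    rw [Finset.sum_congr rfl fun v _ => this v, Finset.sum_ite_eq' univ (y ^ 3 - y),
      if_pos (mem_univ _)]
  rw [h1, Finset.sum_comm, Finset.mul_sum]
  refine Finset.sum_congr rfl fun v _ => ?_
  rw [← Finset.mul_sum]
  have h3 : ∑ y : L, ∑ t : L, ψ (t * (y ^ 3 - y - v)) =
      (Fintype.card L : ℂ) * (1 + ψ v + ψ (-v)) := by
    rw [Finset.sum_comm, ← sum_cube]
    have h4 : ∀ u : L, ∑ y : L, ψ (u ^ 3 * (y ^ 3 - y - v)) =
        if u - u ^ 3 = 0 then ψ (-(u ^ 3 * v)) * (Fintype.card L : ℂ) else 0 := by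
      intro u
      have h5 : ∀ y : L, ψ (u ^ 3 * (y ^ 3 - y - v)) = ψ (-(u ^ 3 * v)) * ψ (y * (u - u ^ 3)) := by
        intro y
        have h6 : u ^ 3 * (y ^ 3 - y - v) = (u * y) ^ 3 + (-(u ^ 3 * y) + -(u ^ 3 * v)) := by ring
        have h7 : y * (u - u ^ 3) = u * y + -(u ^ 3 * y) := by ring
        rw [h6, h7, AddChar.map_add_eq_mul, AddChar.map_add_eq_mul, AddChar.map_add_eq_mul,
          hψ.frob]
        ring
      rw [Finset.sum_congr rfl fun y _ => h5 y, ← Finset.mul_sum, orth hψ]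
      split_ifs
      · rfl
      · rw [mul_zero]
    rw [Finset.sum_congr rfl fun u _ => h4 u, ← Finset.sum_filter]
    have h8 : (univ.filter fun u : L => u - u ^ 3 = 0) = {0, 1, -1} := by
      ext u
      rw [mem_filter, mem_insert, mem_insert, mem_singleton]
      constructor
      · rintro ⟨-, h⟩
        have h9 : u * ((1 - u) * (1 + u)) = 0 := by linear_combination h
        rcases mul_eq_zero.1 h9 with h | h
        · exact Or.inl h
        · rcases mul_eq_zero.1 h with h | h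
          · exact Or.inr (Or.inl (by linear_combination -h))
          · exact Or.inr (Or.inr (by linear_combination h))
      · rintro (rfl | rfl | rfl)
        · exact ⟨mem_univ _, by ring⟩
        · exact ⟨mem_univ _, by ring⟩
        · exact ⟨mem_univ _, by ring⟩
    have h10 : (1 : L) ≠ -1 := by
      intro h
      apply h2
      linear_combination h
    rw [h8, Finset.sum_insert, Finset.sum_insert, Finset.sum_singleton]
    · have e0 : -((0 : L) ^ 3 * v) = 0 := by ring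
      have e1 : -((1 : L) ^ 3 * v) = -v := by ring
      have e2 : -((-1 : L) ^ 3 * v) = v := by ring
      rw [e0, e1, e2, AddChar.map_zero_eq_one]
      ring
    · rw [mem_singleton]
      exact h10
    · rw [mem_insert, mem_singleton, not_or]
      exact ⟨zero_ne_one, fun h => one_ne_zero (by linear_combination h : (1 : L) = 0)⟩
  rw [h3]
  ring

/-- the roots of `w³ + w² + 1` -/
lemma roots_a {i : L} (hi : i ^ 2 = -1) (w : L) :
    w ^ 3 + w ^ 2 + 1 = 0 ↔ w = 1 ∨ w = -1 - i ∨ w = -1 + i := by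
  have h3 := three (L := L)
  have e1 : w ^ 3 + w ^ 2 + 1 = (w - 1) * ((w - (-1 - i)) * (w - (-1 + i))) := by
    linear_combination (w - 1) * hi + h3
  rw [e1, mul_eq_zero, mul_eq_zero, sub_eq_zero, sub_eq_zero, sub_eq_zero]

/-- the roots of `r³ + r + 1` -/
lemma roots_b {i : L} (hi : i ^ 2 = -1) (w : L) :
    1 + w + w ^ 3 = 0 ↔ w = 1 ∨ w = 1 + i ∨ w = 1 - i := by
  have h3 := three (L := L)
  have e1 : 1 + w + w ^ 3 = (w - 1) * ((w - (1 + i)) * (w - (1 - i))) := by
    linear_combination (w - 1) * hi + (1 - w + w ^ 2) * h3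
  rw [e1, mul_eq_zero, mul_eq_zero, sub_eq_zero, sub_eq_zero, sub_eq_zero]

omit [CharP L 3] in
lemma sum_three {P : L → Prop} [DecidablePred P] {a b c : L} (hab : a ≠ b) (hac : a ≠ c)
    (hbc : b ≠ c) (hP : ∀ w, P w ↔ w = a ∨ w = b ∨ w = c) (f : L → ℂ) :
    ∑ w : L, (if P w then f w else 0) = f a + f b + f c := by
  rw [← Finset.sum_filter]
  have h8 : (univ.filter fun w : L => P w) = {a, b, c} := by
    ext u
    rw [mem_filter, mem_insert, mem_insert, mem_singleton, hP]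
    exact and_iff_right (mem_univ _)
  rw [h8, Finset.sum_insert, Finset.sum_insert, Finset.sum_singleton, add_assoc]
  · rw [mem_singleton]
    exact hbc
  · rw [mem_insert, mem_singleton, not_or]
    exact ⟨hab, hac⟩

omit [CharP L 3] in
lemma sum_A (h2 : (2 : L) ≠ 0) (hneg : e (-1 : L) = 1) (g : L) :
    ∑ v : L, e (g ^ 2 - v ^ 2) = (if g = 0 then (Fintype.card L : ℂ) else 0) - 1 := by
  have hne : (-1 : L) ≠ 0 := neg_ne_zero.2 one_ne_zero
  have h := sum_quad h2 (k := g ^ 2) hne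
  have h' := congrArg (fun n : ℤ => (n : ℂ)) h
  push_cast at h'
  have h5 : ((quadraticChar L (-1) : ℤ) : ℂ) = 1 := hneg
  rw [h5, mul_one] at h'
  have h6 : (if g ^ 2 = 0 then (Fintype.card L : ℂ) else 0) =
      (if g = 0 then (Fintype.card L : ℂ) else 0) := by
    by_cases hg : g = 0
    · rw [if_pos hg, if_pos (by rw [hg, zero_pow two_ne_zero])]
    · rw [if_neg hg, if_neg (pow_ne_zero 2 hg)]
  rw [← h6, ← h']
  refine Finset.sum_congr rfl fun v _ => ?_
  show ((quadraticChar L _ : ℤ) : ℂ) = ((quadraticChar L _ : ℤ) : ℂ)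
  congr 2
  ring

omit [CharP L 3] in
lemma sum_B (h2 : (2 : L) ≠ 0) (hneg : e (-1 : L) = 1) (hψ : Adm 3 ψ) (g : L) :
    ∑ v : L, e (g ^ 2 - v ^ 2) * ψ v = ∑ u : L, e (1 - u ^ 2) * ψ (g * u) := by
  by_cases hg : g = 0
  · subst hg
    have h1 : ∑ u : L, e (1 - u ^ 2) * ψ (0 * u) = -1 := by
      have h := sum_A h2 hneg (1 : L)
      rw [if_neg one_ne_zero, zero_sub, one_pow] at h
      rw [← h]
      refine Finset.sum_congr rfl fun u _ => ?_
      rw [zero_mul, AddChar.map_zero_eq_one, mul_one]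
    have h2' : ∀ v : L, e (0 ^ 2 - v ^ 2) * ψ v = ψ v - (if v = 0 then 1 else 0) := by
      intro v
      by_cases hv : v = 0
      · subst hv
        rw [if_pos rfl, AddChar.map_zero_eq_one, sub_self, sub_self, e_zero, zero_mul]
      · rw [if_neg hv, sub_zero]
        have : (0 : L) ^ 2 - v ^ 2 = v ^ 2 * (-1) := by ring
        rw [this, e_sq hv, hneg, one_mul]
    have h3 : ∑ v : L, ψ v = 0 := by
      have := orth hψ (1 : L)
      rw [if_neg one_ne_zero] at this
      rw [← this]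
      exact Finset.sum_congr rfl fun x _ => by rw [mul_one]
    rw [h1, Finset.sum_congr rfl fun v _ => h2' v, Finset.sum_sub_distrib, h3,
      Finset.sum_ite_eq' univ (0 : L), if_pos (mem_univ _), zero_sub]
  · rw [← sum_mulC hg (fun v => e (g ^ 2 - v ^ 2) * ψ v)]
    refine Finset.sum_congr rfl fun u _ => ?_
    have : g ^ 2 - (g * u) ^ 2 = g ^ 2 * (1 - u ^ 2) := by ring
    rw [this, e_sq hg]

/-- the inner sum -/
lemma sum_inner (h2 : (2 : L) ≠ 0) (hψ : Adm 3 ψ) (w : Lˣ) :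
    ∑ x : L, ψ ((x ^ 3 + x ^ 2 + 1) * (w : L) ^ 3) =
      ψ ((w : L) - (w : L)⁻¹) * (e (w : L) * GG ψ) := by
  have hw : (w : L) ≠ 0 := w.ne_zero
  have h3 := three (L := L)
  have h1 : ∀ x : L, ψ ((x ^ 3 + x ^ 2 + 1) * (w : L) ^ 3) =
      (fun y => ψ (w + (w * y + w ^ 3 * y ^ 2))) x := by
    intro x
    show ψ ((x ^ 3 + x ^ 2 + 1) * (w : L) ^ 3) = ψ (w + (w * x + w ^ 3 * x ^ 2))
    have h5 : (x ^ 3 + x ^ 2 + 1) * (w : L) ^ 3 =
        (w : L) ^ 3 + (((w : L) * x) ^ 3 + (w : L) ^ 3 * x ^ 2) := by ring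
    rw [h5, AddChar.map_add_eq_mul, AddChar.map_add_eq_mul, AddChar.map_add_eq_mul,
      AddChar.map_add_eq_mul, hψ.frob, hψ.frob]
  rw [Finset.sum_congr rfl fun x _ => h1 x,
    ← sum_linC (one_ne_zero) (((w : L)⁻¹) ^ 2) (fun y => ψ (w + (w * y + w ^ 3 * y ^ 2))),
    ← e_cube (w : L), ← gauss_sq h2 hψ (pow_ne_zero 3 hw), Finset.mul_sum]
  refine Finset.sum_congr rfl fun x _ => ?_
  rw [← AddChar.map_add_eq_mul]
  congr 1
  field_simp
  linear_combination ((w : L) ^ 2 * x + 1) * h3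

/-- the double sum with `ψ` -/
lemma sum_T (h2 : (2 : L) ≠ 0) (hneg : e (-1 : L) = 1) (hψ : Adm 3 ψ) :
    ∑ x : L, ∑ u : L, e (1 - u ^ 2) * ψ ((x ^ 3 + x ^ 2 + 1) * u) =
      (Fintype.card L : ℂ) + GG ψ * ∑ X : L, (1 + e (X ^ 2 + 4)) * (e X * ψ X) := by
  rw [Finset.sum_comm, ← sum_cube, sum_un, ← sum_inv_sub h2 (fun X => e X * ψ X), Finset.mul_sum]
  congr 1
  · have : ∀ x : L, e (1 - ((0 : L) ^ 3) ^ 2) * ψ ((x ^ 3 + x ^ 2 + 1) * 0 ^ 3) = 1 := by
      intro x
      rw [zero_pow three_ne_zero, zero_pow two_ne_zero, mul_zero, AddChar.map_zero_eq_one,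
        sub_zero, e_one, mul_one]
    rw [Finset.sum_congr rfl fun x _ => this x, Finset.sum_const, card_univ, nsmul_eq_mul, mul_one]
  · refine Finset.sum_congr rfl fun w _ => ?_
    have hw : (w : L) ≠ 0 := w.ne_zero
    rw [← Finset.mul_sum, sum_inner h2 hψ w]
    have h5 : e (1 - ((w : L) ^ 3) ^ 2) = e (1 - (w : L) ^ 2) := by
      have h3 := three (L := L)
      rw [← e_cube (1 - (w : L) ^ 2)]
      congr 1
      linear_combination ((w : L) ^ 2 - (w : L) ^ 4) * h3
    have h6 : e (1 - (w : L) ^ 2) * e (w : L) = e ((w : L) - (w : L)⁻¹) := by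
      rw [← e_inv (w : L), ← e_mul, ← one_mul (e ((1 - (w : L) ^ 2) * (w : L)⁻¹)), ← hneg, ← e_mul]
      congr 1
      field_simp
      ring
    rw [h5, ← h6]
    ring

/-- the last sum -/
lemma sum_Theta (h2 : (2 : L) ≠ 0) (hneg : e (-1 : L) = 1) (hψ : Adm 3 ψ) {i : L}
    (hi : i ^ 2 = -1) (h1p : e (1 + i) = 1) (h1m : e (1 - i) = 1) :
    GG ψ * ∑ X : L, (1 + e (X ^ 2 + 4)) * (e X * ψ X) = 4 * (Fintype.card L : ℂ) := by
  have h3 := three (L := L)
  have hi0 : i ≠ 0 := by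
    rintro rfl
    rw [zero_pow two_ne_zero] at hi
    exact one_ne_zero (by linear_combination hi : (1 : L) = 0)
  have e0 : ∑ X : L, (1 + e (X ^ 2 + 4)) * (e X * ψ X) =
      GG ψ + ∑ X : L, e (X ^ 3 + X) * ψ X := by
    unfold GG
    rw [← Finset.sum_add_distrib]
    refine Finset.sum_congr rfl fun X _ => ?_
    have : X ^ 3 + X = (X ^ 2 + 4) * X := by linear_combination -X * h3
    rw [this, e_mul]
    ring
  have e1 : GG ψ * ∑ X : L, e (X ^ 3 + X) * ψ X =
      ∑ r : L, (if 1 + r + r ^ 3 = 0 then e r * (Fintype.card L : ℂ) else 0) := by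
    have h5 : ∀ X : L, GG ψ * (e (X ^ 3 + X) * ψ X) =
        ∑ u : L, e u * ψ (X + u * (X ^ 3 + X)) := by
      intro X
      have h6 : GG ψ * (e (X ^ 3 + X) * ψ X) = ψ X * (e (X ^ 3 + X) * GG ψ) := by ring
      rw [h6, ← gauss1 h2, Finset.mul_sum]
      refine Finset.sum_congr rfl fun u _ => ?_
      rw [AddChar.map_add_eq_mul]
      ring
    rw [Finset.mul_sum, Finset.sum_congr rfl fun X _ => h5 X, Finset.sum_comm, ← sum_cube]
    refine Finset.sum_congr rfl fun r _ => ?_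
    rw [← Finset.mul_sum, e_cube]
    have h7 : ∀ X : L, ψ (X + r ^ 3 * (X ^ 3 + X)) = ψ (X * (1 + r + r ^ 3)) := by
      intro X
      have h8 : X + r ^ 3 * (X ^ 3 + X) = (r * X) ^ 3 + (X + r ^ 3 * X) := by ring
      have h9 : X * (1 + r + r ^ 3) = r * X + (X + r ^ 3 * X) := by ring
      rw [h8, h9, AddChar.map_add_eq_mul, AddChar.map_add_eq_mul _ (r * X), hψ.frob]
    rw [Finset.sum_congr rfl fun X _ => h7 X, orth hψ]
    split_ifs
    · rfl
    · rw [mul_zero]
  have e2 := sum_three (P := fun w : L => 1 + w + w ^ 3 = 0) (a := 1) (b := 1 + i) (c := 1 - i)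
    (fun h => hi0 (by linear_combination -h)) (fun h => hi0 (by linear_combination h))
    (fun h => hi0 (mul_left_cancel₀ h2 (by linear_combination h)))
    (roots_b hi) (fun r => e r * (Fintype.card L : ℂ))
  rw [e0, mul_add, e1, gauss2 h2 hneg hψ, e2, h1p, h1m, e_one]
  ring

end Psi

section Final

variable [CharP L 3]

/-- `η(x) = 1` for `x ^ 8 = 1` if `81 ^ m = #L` -/
lemma e_eq_one {m : ℕ} (hm : 1 ≤ m) (hL : Fintype.card L = 81 ^ m) {x : L} (hx : x ^ 8 = 1) :
    e x = 1 := by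
  have h2 : (2 : L) ≠ 0 := by
    intro h
    have h3 := three (L := L)
    exact one_ne_zero (by linear_combination h3 - h : (1 : L) = 0)
  have hx0 : x ≠ 0 := by
    rintro rfl
    rw [zero_pow (by norm_num)] at hx
    exact zero_ne_one hx
  unfold e
  have h5 : quadraticChar L x = 1 := by
    rw [quadraticChar_one_iff_isSquare hx0, FiniteField.isSquare_iff (ringChar_ne h2) hx0]
    have h6 := Nat.sub_dvd_pow_sub_pow 81 1 m
    rw [one_pow, ← hL] at h6
    obtain ⟨k, hk⟩ := h6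
    have h7 : Fintype.card L / 2 = 8 * (5 * k) := by
      have : 1 ≤ Fintype.card L := Fintype.card_pos
      omega
    rw [h7, pow_mul, hx, one_pow]
  rw [h5, Int.cast_one]

theorem sum_main {m : ℕ} (hm : 1 ≤ m) (hL : Fintype.card L = 81 ^ m) :
    ∑ w : L, ∑ v : L, quadraticChar L ((w ^ 3 + w ^ 2 + 1) ^ 2 - (v ^ 3 - v) ^ 2) =
      12 * (Fintype.card L : ℤ) := by
  haveI : Fact (Nat.Prime 3) := ⟨Nat.prime_three⟩
  letI : Algebra (ZMod 3) L := ZMod.algebra L 3
  obtain ⟨ψ, hψ⟩ := exists_adm L 3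
  have h3 := three (L := L)
  have h2 : (2 : L) ≠ 0 := by
    intro h
    exact one_ne_zero (by linear_combination h3 - h : (1 : L) = 0)
  have hneg : e (-1 : L) = 1 := e_eq_one hm hL (by ring)
  obtain ⟨i, hi⟩ : ∃ i : L, i ^ 2 = -1 := by
    have h5 : IsSquare (-1 : L) := by
      rw [FiniteField.isSquare_neg_one_iff, hL]
      have h6 := Nat.sub_dvd_pow_sub_pow 81 1 m
      rw [one_pow] at h6
      obtain ⟨k, hk⟩ := h6
      have : 1 ≤ 81 ^ m := Nat.one_le_pow _ _ (by norm_num)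
      omega
    obtain ⟨i, hi⟩ := h5
    exact ⟨i, by rw [hi]; ring⟩
  have hp8 : ∀ j : L, j ^ 2 = -1 → (1 + j) ^ 8 = 1 := by
    intro j hj
    have h5 : (1 + j) ^ 2 = 2 * j := by linear_combination hj
    have h6 : (1 + j) ^ 8 = ((1 + j) ^ 2) ^ 4 := by ring
    rw [h6, h5]
    linear_combination 16 * (j ^ 2 - 1) * hj + 5 * h3
  have h1p : e (1 + i) = 1 := e_eq_one hm hL (hp8 i hi)
  have h1m : e (1 - i) = 1 := by
    have := e_eq_one hm hL (hp8 (-i) (by rw [neg_sq, hi]))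
    rwa [← sub_eq_add_neg] at this
  have hi0 : i ≠ 0 := by
    rintro rfl
    rw [zero_pow two_ne_zero] at hi
    exact one_ne_zero (by linear_combination hi : (1 : L) = 0)
  have key : ∑ w : L, ∑ v : L, e ((w ^ 3 + w ^ 2 + 1) ^ 2 - (v ^ 3 - v) ^ 2) =
      12 * (Fintype.card L : ℂ) := by
    have f1 : ∀ w : L, ∑ v : L, e ((w ^ 3 + w ^ 2 + 1) ^ 2 - (v ^ 3 - v) ^ 2) =
        (if w ^ 3 + w ^ 2 + 1 = 0 then (Fintype.card L : ℂ) else 0) - 1 +
          2 * ∑ u : L, e (1 - u ^ 2) * ψ ((w ^ 3 + w ^ 2 + 1) * u) := by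
      intro w
      rw [sum_AS h2 hψ (fun v => e ((w ^ 3 + w ^ 2 + 1) ^ 2 - v ^ 2)), ← sum_A h2 hneg,
        ← sum_B h2 hneg hψ]
      have f2 : ∑ v : L, e ((w ^ 3 + w ^ 2 + 1) ^ 2 - v ^ 2) * ψ (-v) =
          ∑ v : L, e ((w ^ 3 + w ^ 2 + 1) ^ 2 - v ^ 2) * ψ v := by
        rw [← sum_negC]
        refine Finset.sum_congr rfl fun v _ => ?_
        rw [neg_sq, neg_neg]
      have f3 : ∑ v : L, e ((w ^ 3 + w ^ 2 + 1) ^ 2 - v ^ 2) * (1 + ψ v + ψ (-v)) =
          ∑ v : L, e ((w ^ 3 + w ^ 2 + 1) ^ 2 - v ^ 2) +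
            (∑ v : L, e ((w ^ 3 + w ^ 2 + 1) ^ 2 - v ^ 2) * ψ v +
              ∑ v : L, e ((w ^ 3 + w ^ 2 + 1) ^ 2 - v ^ 2) * ψ (-v)) := by
        rw [← Finset.sum_add_distrib, ← Finset.sum_add_distrib]
        exact Finset.sum_congr rfl fun v _ => by ring
      rw [f3, f2]
      ring
    rw [Finset.sum_congr rfl fun w _ => f1 w, Finset.sum_add_distrib, Finset.sum_sub_distrib,
      ← Finset.mul_sum, sum_T h2 hneg hψ, sum_Theta h2 hneg hψ hi h1p h1m]
    have f4 := sum_three (P := fun w : L => w ^ 3 + w ^ 2 + 1 = 0) (a := 1) (b := -1 - i)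
      (c := -1 + i)
      (fun h => one_ne_zero (α := L) (by
        have h5 : i = -2 := by linear_combination h
        rw [h5] at hi
        exact absurd hi (fun h6 => one_ne_zero (α := L) (by linear_combination 2 * h3 - h6))))
      (fun h => one_ne_zero (α := L) (by
        have h5 : i = 2 := by linear_combination -h
        rw [h5] at hi
        exact absurd hi (fun h6 => one_ne_zero (α := L) (by linear_combination 2 * h3 - h6))))
      (fun h => hi0 (mul_left_cancel₀ h2 (by linear_combination -h)))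
      (roots_a hi) (fun _ => (Fintype.card L : ℂ))
    rw [f4, Finset.sum_const, card_univ, nsmul_eq_mul]
    ring
  have h9 : ((∑ w : L, ∑ v : L, quadraticChar L ((w ^ 3 + w ^ 2 + 1) ^ 2 - (v ^ 3 - v) ^ 2) : ℤ)
      : ℂ) = ((12 * (Fintype.card L : ℤ) : ℤ) : ℂ) := by
    push_cast
    exact key
  exact_mod_cast h9

end Final

end SC3
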